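import Mathlib

set_option autoImplicit false

namespace Pool.Agent.Results.MP_9c63ae_al.RankTwo

open Equiv

/-- A permutation, as an element of the full transformation monoid. -/
def toMap {n : ℕ} (g : Perm (Fin n)) : Function.End (Fin n) := fun x => g x

/-- `⟨a, K⟩`: the subsemigroup of the full transformation monoid `T_n` (all maps `Fin n → Fin n`
under composition) generated by `a` and the permutations in `K`. -/
def gen {n : ℕ} (a : Function.End (Fin n)) (K : Subgroup (Perm (Fin n))) :
    Subsemigroup (Function.End (Fin n)) :=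
  Subsemigroup.closure (insert a (toMap '' K))

/-- `⟨a, K⟩ \ K`. -/
def nonGroup {n : ℕ} (a : Function.End (Fin n)) (K : Subgroup (Perm (Fin n))) :
    Set (Function.End (Fin n)) :=
  (gen a K : Set (Function.End (Fin n))) \ (toMap '' K)

/-- `(a, H)` is a `G`-pair. -/
def IsPair {n : ℕ} (G : Subgroup (Perm (Fin n))) (a : Function.End (Fin n))
    (H : Subgroup (Perm (Fin n))) : Prop :=
  nonGroup a G = nonGroup a H

/-- `G` is transitive on ordered pairs of distinct points. -/
def TwoTransitive {n : ℕ} (G : Subgroup (Perm (Fin n))) : Prop :=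
  ∀ x y u v : Fin n, x ≠ y → u ≠ v → ∃ g ∈ G, g x = u ∧ g y = v

/-- `G` is transitive on unordered pairs of distinct points. -/
def TwoHomogeneous {n : ℕ} (G : Subgroup (Perm (Fin n))) : Prop :=
  ∀ x y u v : Fin n, x ≠ y → u ≠ v → ∃ g ∈ G, (g x = u ∧ g y = v) ∨ (g x = v ∧ g y = u)

/-- The set of the kernels (partitions of the domain) of the maps `a ∘ g`, `g ∈ K`: the `K`-orbit of
the kernel of `a`. -/
def kernelOrbit {n : ℕ} (a : Function.End (Fin n)) (K : Subgroup (Perm (Fin n))) :
    Set (Setoid (Fin n)) :=
  (fun g : Perm (Fin n) => Setoid.ker (fun x => a (g x))) '' K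

section aux

variable {n : ℕ} {a : Function.End (Fin n)} {K : Subgroup (Perm (Fin n))}

lemma mem_a : a ∈ gen a K := Subsemigroup.subset_closure (Set.mem_insert _ _)

lemma mem_g {g : Perm (Fin n)} (hg : g ∈ K) : toMap g ∈ gen a K :=
  Subsemigroup.subset_closure (Set.mem_insert_of_mem _ ⟨g, hg, rfl⟩)

/-- Every element of `⟨a, K⟩` lies in `K` or is of the form `c ∘ a ∘ g`, and of the form
`h ∘ a ∘ d`, with `g, h ∈ K`. -/
lemma shape {b : Function.End (Fin n)} (hb : b ∈ gen a K) :
    (∃ g ∈ K, b = toMap g) ∨
    ((∃ c : Fin n → Fin n, ∃ g ∈ K, b = fun x => c (a (g x))) ∧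
     (∃ d : Fin n → Fin n, ∃ h ∈ K, b = fun x => h (a (d x)))) := by
  induction hb using Subsemigroup.closure_induction with
  | mem x hx =>
    rcases hx with rfl | ⟨g, hg, rfl⟩
    · right
      exact ⟨⟨fun x => x, 1, K.one_mem, rfl⟩, ⟨fun x => x, 1, K.one_mem, rfl⟩⟩
    · left; exact ⟨g, hg, rfl⟩
  | mul x y hx hy ihx ihy =>
    rcases ihx with ⟨g, hg, rfl⟩ | ⟨⟨c, g, hg, hc⟩, ⟨d, h, hh, hd⟩⟩
    · rcases ihy with ⟨g', hg', rfl⟩ | ⟨⟨c', g', hg', hc'⟩, ⟨d', h', hh', hd'⟩⟩
      · left; exact ⟨g * g', K.mul_mem hg hg', rfl⟩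
      · right
        refine ⟨⟨fun x => g (c' x), g', hg', ?_⟩, ⟨d', g * h', K.mul_mem hg hh', ?_⟩⟩
        · rw [hc']; rfl
        · rw [hd']; rfl
    · rcases ihy with ⟨g', hg', rfl⟩ | ⟨⟨c', g', hg', hc'⟩, ⟨d', h', hh', hd'⟩⟩
      · right
        refine ⟨⟨c, g * g', K.mul_mem hg hg', ?_⟩, ⟨fun x => d (g' x), h, hh, ?_⟩⟩
        · rw [hc]; rfl
        · rw [hd]; rfl
      · right
        refine ⟨⟨fun z => x (c' z), g', hg', ?_⟩, ⟨fun z => d (y z), h, hh, ?_⟩⟩
        · nth_rewrite 1 [hc']; rfl
        · nth_rewrite 1 [hd]; rfl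

end aux

/-- A 2-homogeneous group of degree at least 3 is transitive. -/
lemma transitive_of {n : ℕ} (hn : 3 ≤ n) (H : Subgroup (Perm (Fin n)))
    (hH : TwoHomogeneous H) (p q : Fin n) : ∃ g ∈ H, g p = q := by
  classical
  by_cases hpq : p = q
  · exact ⟨1, H.one_mem, by simpa using hpq⟩
  -- third point
  obtain ⟨r, hr⟩ : ∃ r : Fin n, r ∉ ({p, q} : Finset (Fin n)) := by
    by_contra hcon
    push Not at hcon
    have h1 : (Finset.univ : Finset (Fin n)) ⊆ {p, q} := fun z _ => hcon z
    have h2 := Finset.card_le_card h1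
    rw [Finset.card_univ, Fintype.card_fin] at h2
    have h3 : ({p, q} : Finset (Fin n)).card ≤ 2 := Finset.card_le_two
    omega
  simp only [Finset.mem_insert, Finset.mem_singleton, not_or] at hr
  obtain ⟨hrp, hrq⟩ := hr
  obtain ⟨g, hg, h | h⟩ := hH p r q r (Ne.symm hrp) (Ne.symm hrq)
  · exact ⟨g, hg, h.1⟩
  · -- g p = r, g r = q : g * g p = q
    exact ⟨g * g, H.mul_mem hg hg, by rw [Perm.mul_apply, h.1, h.2]⟩

/-- Counting: if `H` is 2-homogeneous, `A` and its complement are nonempty, `u ≠ v` and `3 ≤ n`, then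
some `t ∈ H` maps `u` into the complement of `A` and `v` into `A`. -/
lemma exists_separating {n : ℕ} (hn : 3 ≤ n) (H : Subgroup (Perm (Fin n)))
    (hH : TwoHomogeneous H) (A : Finset (Fin n)) (x y : Fin n) (hx : x ∈ A) (hy : y ∉ A)
    (u v : Fin n) (huv : u ≠ v) : ∃ t ∈ H, t u ∉ A ∧ t v ∈ A := by
  classical
  have htr := transitive_of hn H hH
  -- counting
  let S : Finset (Perm (Fin n)) := Finset.univ.filter (fun g => g ∈ H)
  have hS : ∀ g, g ∈ S ↔ g ∈ H := by intro g; simp [S]
  -- number of h with h u ∈ A equals number with h v ∈ A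
  have hcard : (S.filter (fun g => g u ∈ A)).card = (S.filter (fun g => g v ∈ A)).card := by
    obtain ⟨g0, hg0, hg0v⟩ := htr v u
    refine Finset.card_bij (fun g _ => g * g0) ?_ ?_ ?_
    · intro g hg
      simp only [Finset.mem_filter, hS] at hg ⊢
      exact ⟨H.mul_mem hg.1 hg0, by rw [Perm.mul_apply, hg0v]; exact hg.2⟩
    · intro g _ g' _ h
      exact mul_right_cancel h
    · intro g hg
      simp only [Finset.mem_filter, hS] at hg
      refine ⟨g * g0⁻¹, ?_, by simp⟩
      simp only [Finset.mem_filter, hS]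
      refine ⟨H.mul_mem hg.1 (H.inv_mem hg0), ?_⟩
      have h1 : g0⁻¹ u = v := by rw [← hg0v]; simp
      rw [Perm.mul_apply, h1]
      exact hg.2
  by_contra hcon
  push Not at hcon
  -- every g in H with g v ∈ A has g u ∈ A
  have hsub : S.filter (fun g => g v ∈ A) ⊆ S.filter (fun g => g u ∈ A) := by
    intro g hg
    simp only [Finset.mem_filter, hS] at hg ⊢
    refine ⟨hg.1, ?_⟩
    by_contra h
    exact hcon g hg.1 h hg.2
  have heq := Finset.eq_of_subset_of_card_le hsub (le_of_eq hcard)
  have hxy : x ≠ y := by rintro rfl; exact hy hx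
  obtain ⟨g, hg, h | h⟩ := hH u v x y huv hxy
  · have : g ∈ S.filter (fun g => g u ∈ A) := by
      simp only [Finset.mem_filter, hS]; exact ⟨hg, h.1 ▸ hx⟩
    rw [← heq] at this
    simp only [Finset.mem_filter] at this
    exact hy (h.2 ▸ this.2)
  · have : g ∈ S.filter (fun g => g v ∈ A) := by
      simp only [Finset.mem_filter, hS]; exact ⟨hg, h.2 ▸ hx⟩
    rw [heq] at this
    simp only [Finset.mem_filter] at this
    exact hy (h.1 ▸ this.2)

/-- The explicit description of `⟨a, K⟩ \ K` for a map `a` of rank 2 and `K` 2-homogeneous. -/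
def ideal {n : ℕ} (a : Function.End (Fin n)) (K : Subgroup (Perm (Fin n))) :
    Set (Function.End (Fin n)) :=
  {b | (∃ w, b = fun _ => w) ∨ ((Set.range b).ncard = 2 ∧
    ∃ h ∈ K, ∀ x y, b x = b y ↔ a (h x) = a (h y))}

lemma ncard_pair_range {n : ℕ} {b : Fin n → Fin n} (h : (Set.range b).ncard = 2) :
    ∃ u v, u ≠ v ∧ Set.range b = {u, v} := Set.ncard_eq_two.mp h

lemma not_perm {n : ℕ} (hn : 3 ≤ n) {b : Fin n → Fin n} {u v : Fin n}
    (hr : Set.range b ⊆ {u, v}) (g : Perm (Fin n)) : b ≠ toMap g := by
  rintro rfl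
  have h1 : (Set.univ : Set (Fin n)) ⊆ {u, v} := by
    rw [← Equiv.range_eq_univ g]; exact hr
  classical
  have h2 := Set.ncard_le_ncard h1 (Set.toFinite _)
  rw [Set.ncard_univ, Nat.card_eq_fintype_card, Fintype.card_fin] at h2
  have h3 : ({u, v} : Set (Fin n)).ncard ≤ 2 := by
    by_cases huv : u = v
    · subst huv; simp
    · rw [Set.ncard_pair huv]
  omega

theorem nonGroup_eq_ideal {n : ℕ} (hn : 3 ≤ n) (K : Subgroup (Perm (Fin n)))
    (hK : TwoHomogeneous K) (a : Function.End (Fin n)) (ha : (Set.range a).ncard = 2) :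
    nonGroup a K = ideal a K := by
  classical
  obtain ⟨u, v, huv, hrange⟩ := ncard_pair_range ha
  have hval : ∀ x, a x = u ∨ a x = v := by
    intro x
    have : a x ∈ Set.range a := ⟨x, rfl⟩
    rw [hrange] at this
    simpa using this
  have hu : u ∈ Set.range a := by rw [hrange]; simp
  have hv : v ∈ Set.range a := by rw [hrange]; simp
  obtain ⟨xu, hxu⟩ := hu
  obtain ⟨xv, hxv⟩ := hv
  ext b
  constructor
  · rintro ⟨hb, hbn⟩
    rcases shape hb with ⟨g, hg, rfl⟩ | ⟨⟨c, g, hg, hc⟩, -⟩
    · exact absurd ⟨g, hg, rfl⟩ hbn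
    by_cases hcc : c u = c v
    · left
      refine ⟨c u, ?_⟩
      rw [hc]; funext x
      rcases hval (g x) with h | h
      · simp only [h]
      · simp only [h]; exact hcc.symm
    · right
      constructor
      · have : Set.range b = {c u, c v} := by
          ext z
          simp only [Set.mem_range, Set.mem_insert_iff, Set.mem_singleton_iff]
          constructor
          · rintro ⟨x, rfl⟩
            rw [hc]
            rcases hval (g x) with h | h
            · left; simp only [h]
            · right; simp only [h]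
          · rintro (rfl | rfl)
            · exact ⟨g⁻¹ xu, by rw [hc]; simp [hxu]⟩
            · exact ⟨g⁻¹ xv, by rw [hc]; simp [hxv]⟩
        rw [this]
        exact Set.ncard_pair hcc
      · refine ⟨g, hg, fun x y => ?_⟩
        rw [hc]
        constructor
        · intro h
          simp only at h
          rcases hval (g x) with h1 | h1 <;> rcases hval (g y) with h2 | h2 <;>
            rw [h1, h2] at h ⊢
          · exact absurd h hcc
          · exact absurd h.symm hcc
        · intro h
          simp only [h]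
  · rintro (⟨w, rfl⟩ | ⟨hb2, h, hh, hker⟩)
    · -- constants
      obtain ⟨p, q, hpq, hapq⟩ : ∃ p q : Fin n, p ≠ q ∧ a p = a q := by
        by_contra hcon
        push Not at hcon
        have hinj : Function.Injective a := by
          intro x y hxy
          by_contra hne
          exact hcon x y hne hxy
        have h1 : Set.range a = Set.univ :=
          Set.range_eq_univ.mpr (Finite.surjective_of_injective hinj)
        rw [h1, Set.ncard_univ, Nat.card_eq_fintype_card, Fintype.card_fin] at ha
        omega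
      obtain ⟨t, ht, hT⟩ := hK u v p q huv hpq
      obtain ⟨g, hg, hgw⟩ := transitive_of hn K hK (a p) w
      have key : (fun _ => w : Function.End (Fin n)) =
          toMap g * (a * (toMap t * a)) := by
        funext x
        change w = g (a (t (a x)))
        rw [← hgw]
        congr 1
        rcases hval x with hx | hx <;> rcases hT with hT | hT <;> rw [hx]
        · rw [hT.1]
        · rw [hT.1]; exact hapq
        · rw [hT.2]; exact hapq
        · rw [hT.2]
      refine ⟨?_, ?_⟩
      · rw [key]
        exact (gen a K).mul_mem (mem_g hg) ((gen a K).mul_mem mem_a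
          ((gen a K).mul_mem (mem_g ht) mem_a))
      · rintro ⟨g', -, hg'⟩
        refine not_perm hn (b := fun _ => w) (u := w) (v := w) ?_ g' hg'.symm
        rintro z ⟨x, rfl⟩
        simp
    · -- rank two
      obtain ⟨p', q', hpq', hrb⟩ := ncard_pair_range hb2
      have hx0 : a (h (h⁻¹ xu)) = u := by simp [hxu]
      have hx1 : a (h (h⁻¹ xv)) = v := by simp [hxv]
      set x0 := h⁻¹ xu with hx0def
      set x1 := h⁻¹ xv with hx1def
      have hne : b x0 ≠ b x1 := by
        intro hcon
        have := (hker x0 x1).mp hcon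
        rw [hx0, hx1] at this
        exact huv this
      have hbu : ∀ x, a (h x) = u → b x = b x0 := fun x hx => (hker x x0).mpr (by rw [hx, hx0])
      have hbv : ∀ x, a (h x) = v → b x = b x1 := fun x hx => (hker x x1).mpr (by rw [hx, hx1])
      refine ⟨?_, ?_⟩
      · obtain ⟨g, hg, hG | hG⟩ := hK u v (b x0) (b x1) huv hne
        · have key : b = toMap g * (a * toMap h) := by
            funext x
            change b x = g (a (h x))
            rcases hval (h x) with hx | hx
            · rw [hx, hG.1, hbu x hx]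
            · rw [hx, hG.2, hbv x hx]
          rw [key]
          exact (gen a K).mul_mem (mem_g hg) ((gen a K).mul_mem mem_a (mem_g hh))
        · let A : Finset (Fin n) := Finset.univ.filter (fun x => a x = u)
          have hA : ∀ x, x ∈ A ↔ a x = u := by intro x; simp [A]
          obtain ⟨t, ht, htu, htv⟩ := exists_separating hn K hK A xu xv
            ((hA _).mpr hxu) (fun hc => huv ((hA _).mp hc ▸ hxv)) u v huv
          have htu' : a (t u) = v := (hval (t u)).resolve_left (fun hc => htu ((hA _).mpr hc))
          have htv' : a (t v) = u := (hA _).mp htv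
          have key : b = toMap g * (a * (toMap t *
              (a * toMap h))) := by
            funext x
            change b x = g (a (t (a (h x))))
            rcases hval (h x) with hx | hx
            · rw [hx, htu', hG.2, hbu x hx]
            · rw [hx, htv', hG.1, hbv x hx]
          rw [key]
          exact (gen a K).mul_mem (mem_g hg) ((gen a K).mul_mem mem_a
            ((gen a K).mul_mem (mem_g ht) ((gen a K).mul_mem mem_a (mem_g hh))))
      · rintro ⟨g', -, hg'⟩
        exact not_perm hn hrb.le g' hg'.symm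

/-- Let `3 ≤ n`, let `G ≤ S_n` be 2-transitive and let `a ∈ T_n` have rank 2. For every `H ≤ S_n`,
`(a, H)` is a `G`-pair if and only if `H` is 2-homogeneous and the `H`-orbit of the kernel of `a`
equals its `G`-orbit. -/
theorem result {n : ℕ} (hn : 3 ≤ n) (G : Subgroup (Perm (Fin n))) (hG : TwoTransitive G)
    (a : Function.End (Fin n)) (ha : (Set.range a).ncard = 2) (H : Subgroup (Perm (Fin n))) :
    IsPair G a H ↔ TwoHomogeneous H ∧ kernelOrbit a H = kernelOrbit a G := by
  classical
  have hG' : TwoHomogeneous G := by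
    intro x y u v hxy huv
    obtain ⟨g, hg, h⟩ := hG x y u v hxy huv
    exact ⟨g, hg, Or.inl h⟩
  have hGi := nonGroup_eq_ideal hn G hG' a ha
  obtain ⟨u, v, huv, hrange⟩ := ncard_pair_range ha
  have hval : ∀ x, a x = u ∨ a x = v := by
    intro x
    have : a x ∈ Set.range a := ⟨x, rfl⟩
    rw [hrange] at this
    simpa using this
  have hu : u ∈ Set.range a := by rw [hrange]; simp
  have hv : v ∈ Set.range a := by rw [hrange]; simp
  obtain ⟨xu, hxu⟩ := hu
  obtain ⟨xv, hxv⟩ := hv
  constructor
  · intro hpair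
    have hpair' : nonGroup a H = ideal a G := by rw [← hGi]; exact hpair.symm
    -- an element of `⟨a, H⟩ \ H` with prescribed range
    have hhom : ∀ p q : Fin n, p ≠ q → ∃ h ∈ H, (h u = p ∧ h v = q) ∨ (h u = q ∧ h v = p) := by
      intro p q hpq
      let b : Function.End (Fin n) := fun x => if a x = u then p else q
      have hbr : Set.range b = {p, q} := by
        ext z
        simp only [Set.mem_range, Set.mem_insert_iff, Set.mem_singleton_iff, b]
        constructor
        · rintro ⟨x, rfl⟩
          by_cases hx : a x = u <;> simp [hx]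
        · rintro (rfl | rfl)
          · exact ⟨xu, by simp [hxu]⟩
          · exact ⟨xv, by rw [if_neg]; rw [hxv]; exact huv.symm⟩
      have hb : b ∈ ideal a G := by
        right
        refine ⟨by rw [hbr]; exact Set.ncard_pair hpq, 1, G.one_mem, fun x y => ?_⟩
        simp only [b, Perm.one_apply]
        rcases hval x with hx | hx <;> rcases hval y with hy | hy <;> rw [hx, hy]
        · simp
        · simp [huv, huv.symm, hpq]
        · simp [huv.symm, hpq.symm]
        · simp
      rw [← hpair'] at hb
      rcases shape hb.1 with ⟨g, hg, hg'⟩ | ⟨-, d, h, hh, hd⟩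
      · exact absurd ⟨g, hg, hg'.symm⟩ hb.2
      refine ⟨h, hh, ?_⟩
      have hsub : ({p, q} : Set (Fin n)) ⊆ {h u, h v} := by
        rw [← hbr, hd]
        rintro z ⟨x, rfl⟩
        rcases hval (d x) with hx | hx <;> simp [hx]
      have hp : p = h u ∨ p = h v := by simpa using hsub (by simp : p ∈ ({p, q} : Set (Fin n)))
      have hq : q = h u ∨ q = h v := by simpa using hsub (by simp : q ∈ ({p, q} : Set (Fin n)))
      rcases hp with hp | hp <;> rcases hq with hq | hq
      · exact absurd (hp.trans hq.symm) hpq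
      · left; exact ⟨hp.symm, hq.symm⟩
      · right; exact ⟨hq.symm, hp.symm⟩
      · exact absurd (hp.trans hq.symm) hpq
    have hH : TwoHomogeneous H := by
      intro x y p q hxy hpq
      obtain ⟨h1, hh1, e1⟩ := hhom x y hxy
      obtain ⟨h2, hh2, e2⟩ := hhom p q hpq
      refine ⟨h2 * h1⁻¹, H.mul_mem hh2 (H.inv_mem hh1), ?_⟩
      rcases e1 with e1 | e1
      · have hx : h1⁻¹ x = u := by rw [← e1.1]; simp
        have hy : h1⁻¹ y = v := by rw [← e1.2]; simp
        simp only [Perm.mul_apply, hx, hy]
        exact e2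
      · have hx : h1⁻¹ x = v := by rw [← e1.2]; simp
        have hy : h1⁻¹ y = u := by rw [← e1.1]; simp
        simp only [Perm.mul_apply, hx, hy]
        rcases e2 with e2 | e2
        · right; exact ⟨e2.2, e2.1⟩
        · left; exact ⟨e2.2, e2.1⟩
    refine ⟨hH, ?_⟩
    have hHi := nonGroup_eq_ideal hn H hH a ha
    have hII : ideal a H = ideal a G := by rw [← hHi]; exact hpair'
    -- transfer of kernels
    have transfer : ∀ K L : Subgroup (Perm (Fin n)), ideal a K = ideal a L →
        kernelOrbit a K ⊆ kernelOrbit a L := by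
      rintro K L hKL _ ⟨g, hg, rfl⟩
      have hmem : (fun x => a (g x) : Function.End (Fin n)) ∈ ideal a K := by
        right
        refine ⟨?_, g, hg, fun x y => Iff.rfl⟩
        have : Set.range (fun x => a (g x)) = Set.range a := by
          ext z
          constructor
          · rintro ⟨x, rfl⟩; exact ⟨g x, rfl⟩
          · rintro ⟨x, rfl⟩; exact ⟨g⁻¹ x, by simp⟩
        rw [this]; exact ha
      rw [hKL] at hmem
      rcases hmem with ⟨w, hw⟩ | ⟨-, h, hh, hk⟩
      · exfalso
        have h1 := congrFun hw (g⁻¹ xu)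
        have h2 := congrFun hw (g⁻¹ xv)
        have e1 : g (g⁻¹ xu) = xu := by simp
        have e2 : g (g⁻¹ xv) = xv := by simp
        simp only [e1, e2, hxu, hxv] at h1 h2
        exact huv (by rw [h1, h2])
      · refine ⟨h, hh, ?_⟩
        ext x y
        simp only [Setoid.ker_def]
        exact (hk x y).symm
    exact Set.Subset.antisymm (transfer H G hII) (transfer G H hII.symm)
  · rintro ⟨hH, hker⟩
    have hHi := nonGroup_eq_ideal hn H hH a ha
    unfold IsPair
    rw [hGi, hHi]
    have transfer : ∀ K L : Subgroup (Perm (Fin n)), kernelOrbit a K = kernelOrbit a L →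
        ideal a K ⊆ ideal a L := by
      rintro K L hKL b (hb | ⟨hb, h, hh, hk⟩)
      · left; exact hb
      · right
        refine ⟨hb, ?_⟩
        have hm : Setoid.ker (fun x => a (h x)) ∈ kernelOrbit a K := ⟨h, hh, rfl⟩
        rw [hKL] at hm
        obtain ⟨l, hl, hle⟩ := hm
        refine ⟨l, hl, fun x y => ?_⟩
        rw [hk x y]
        have h3 : (Setoid.ker (fun x => a (l x))) x y ↔ (Setoid.ker (fun x => a (h x))) x y := by
          rw [show Setoid.ker (fun x => a (l x)) = Setoid.ker (fun x => a (h x)) from hle]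
        exact h3.symm
    exact Set.Subset.antisymm (transfer G H hker.symm) (transfer H G hker)

end Pool.Agent.Results.MP_9c63ae_al.RankTwo
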